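import Pool.Agent.helper94.SCT.Spec

/-!
# MP_ad8ced_nt, row sct:SZA
-/

set_option autoImplicit false

namespace Pool.Agent.SCT

open Finset ArithmeticFunction MeasureTheory

/-- The substitution `y = M e^(ηv)`. -/
theorem SZA_cv (M η : ℝ) (hM : 0 < M) (hη : 0 < η) (F : ℝ → ℝ) :
    ∫ y in Set.Ioi (0 : ℝ), F y =
      ∫ v : ℝ, (M * (Real.exp (η * v) * η)) * F (M * Real.exp (η * v)) := by
  have him : (fun v : ℝ => M * Real.exp (η * v)) '' Set.univ = Set.Ioi 0 := by
    ext y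
    simp only [Set.mem_image, Set.mem_univ, true_and, Set.mem_Ioi]
    constructor
    · rintro ⟨v, rfl⟩
      exact mul_pos hM (Real.exp_pos _)
    · intro hy
      refine ⟨Real.log (y / M) / η, ?_⟩
      rw [mul_div_cancel₀ _ hη.ne', Real.exp_log (div_pos hy hM), mul_div_cancel₀ _ hM.ne']
  have hder : ∀ v ∈ (Set.univ : Set ℝ), HasDerivWithinAt (fun v : ℝ => M * Real.exp (η * v))
      (M * (Real.exp (η * v) * η)) Set.univ v := by
    intro v _
    have h1 : HasDerivAt (fun v : ℝ => η * v) η v := by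
      simpa using (hasDerivAt_id v).const_mul η
    exact ((h1.exp).const_mul M).hasDerivWithinAt
  have hinj : Set.InjOn (fun v : ℝ => M * Real.exp (η * v)) Set.univ := by
    intro a _ b _ hab
    have h1 : Real.exp (η * a) = Real.exp (η * b) := mul_left_cancel₀ hM.ne' hab
    exact mul_left_cancel₀ hη.ne' (Real.exp_injective h1)
  have key := MeasureTheory.integral_image_eq_integral_abs_deriv_smul MeasurableSet.univ hder hinj F
  rw [him, MeasureTheory.setIntegral_univ] at key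
  rw [key]
  refine MeasureTheory.integral_congr_ae (Filter.Eventually.of_forall fun v => ?_)
  show |M * (Real.exp (η * v) * η)| • F (M * Real.exp (η * v)) = _
  rw [abs_of_pos (mul_pos hM (mul_pos (Real.exp_pos _) hη)), smul_eq_mul]

/-- The inner integral. -/
theorem SZA_inner (g w : ℝ → ℝ) (hw : ∀ u, w u ≠ 0 → -2 ≤ u ∧ u ≤ 1)
    (hg : ∀ u, 11 / 10 ≤ u → u ≤ 79 / 20 → g u = 1) (x m : ℕ) (hx : 0 < x) (hm : 0 < m) (η : ℝ)
    (hη : 0 < η) (hη' : η ≤ 1 / 4) (h1 : -(1 / 10) ≤ Real.log ((m : ℝ) / x))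
    (h2 : Real.log ((m : ℝ) / x) ≤ 4 / 5) :
    ∫ y in Set.Ioi (0 : ℝ), g (Real.log (y / (x : ℝ) ^ 2)) *
      w ((Real.log y - Real.log (8 * (m : ℝ) ^ 2)) / η) =
    8 * (m : ℝ) ^ 2 * η * ∫ v : ℝ, w v * Real.exp (η * v) := by
  have hx' : (0 : ℝ) < x := by exact_mod_cast hx
  have hm' : (0 : ℝ) < m := by exact_mod_cast hm
  have hM : (0 : ℝ) < 8 * (m : ℝ) ^ 2 := by positivity
  rw [SZA_cv (8 * (m : ℝ) ^ 2) η hM hη, ← MeasureTheory.integral_const_mul]
  refine MeasureTheory.integral_congr_ae (Filter.Eventually.of_forall fun v => ?_)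
  show (8 * (m : ℝ) ^ 2 * (Real.exp (η * v) * η)) *
      (g (Real.log (8 * (m : ℝ) ^ 2 * Real.exp (η * v) / (x : ℝ) ^ 2)) *
        w ((Real.log (8 * (m : ℝ) ^ 2 * Real.exp (η * v)) - Real.log (8 * (m : ℝ) ^ 2)) / η)) =
    8 * (m : ℝ) ^ 2 * η * (w v * Real.exp (η * v))
  have e1 : (Real.log (8 * (m : ℝ) ^ 2 * Real.exp (η * v)) - Real.log (8 * (m : ℝ) ^ 2)) / η = v := by
    rw [Real.log_mul hM.ne' (Real.exp_pos _).ne', Real.log_exp, add_sub_cancel_left,
      mul_div_cancel_left₀ _ hη.ne']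
  rw [e1]
  by_cases hv : w v = 0
  · rw [hv]
    ring
  · obtain ⟨hv1, hv2⟩ := hw v hv
    have e2 : Real.log (8 * (m : ℝ) ^ 2 * Real.exp (η * v) / (x : ℝ) ^ 2) =
        3 * Real.log 2 + 2 * Real.log ((m : ℝ) / x) + η * v := by
      rw [Real.log_div (mul_pos hM (Real.exp_pos _)).ne' (by positivity),
        Real.log_mul hM.ne' (Real.exp_pos _).ne', Real.log_exp,
        Real.log_mul (by norm_num) (by positivity), Real.log_pow, Real.log_pow,
        Real.log_div hm'.ne' hx'.ne', show (8 : ℝ) = 2 ^ 3 by norm_num, Real.log_pow]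
      push_cast
      ring
    have l1 := Real.log_two_gt_d9
    have l2 := Real.log_two_lt_d9
    have b1 : -(1 / 2) ≤ η * v := by nlinarith
    have b2 : η * v ≤ 1 / 4 := by nlinarith
    rw [e2, hg _ (by linarith) (by linarith)]
    ring

theorem SZA (hPNM : PNM_stmt) : SZA_stmt := by
  intro φ g w hφ hgS hwS hφs hw hg κ hκ
  obtain ⟨R, hR0, -, hR⟩ := hwS.bound
  set C : ℝ := R * Real.exp 1 * 3 with hC
  have hC0 : 0 < C := by positivity
  obtain ⟨x₀, hx₀⟩ := hPNM φ hφ (κ / (8 * C)) (by positivity)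
  refine ⟨max x₀ 1, fun x hx η hη hη' => ?_⟩
  have hx1 : x₀ ≤ x := (le_max_left _ _).trans hx
  have hx2 : 0 < x := (le_max_right x₀ 1).trans hx
  have hx' : (0 : ℝ) < x := by exact_mod_cast hx2
  have hT := hx₀ x hx1
  -- the bound for the integral of `w`
  have hI : |∫ v : ℝ, w v * Real.exp (η * v)| ≤ C := by
    have e : ∫ v : ℝ, w v * Real.exp (η * v) = ∫ v in Set.Icc (-2 : ℝ) 1, w v * Real.exp (η * v) := by
      symm
      refine MeasureTheory.setIntegral_eq_integral_of_forall_compl_eq_zero fun v hv => ?_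
      have : w v = 0 := by
        by_contra hc
        exact hv ⟨(hw v hc).1, (hw v hc).2⟩
      rw [this, zero_mul]
    rw [e, ← Real.norm_eq_abs]
    have hb := MeasureTheory.norm_setIntegral_le_of_norm_le_const (μ := volume)
      (s := Set.Icc (-2 : ℝ) 1) (f := fun v => w v * Real.exp (η * v)) (C := R * Real.exp 1)
      (by simp [Real.volume_Icc]) (by
        intro v hv
        rw [norm_mul, Real.norm_eq_abs, Real.norm_eq_abs, abs_of_pos (Real.exp_pos _)]
        refine mul_le_mul (hR v) (Real.exp_le_exp.2 ?_) (Real.exp_pos _).le hR0.le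
        have := hv.2
        nlinarith)
    refine hb.trans (le_of_eq ?_)
    have hvol : (volume : Measure ℝ).real (Set.Icc (-2 : ℝ) 1) = 3 := by
      rw [Real.volume_real_Icc]
      norm_num
    rw [hvol]
  have hS : S0 φ g w x η = 8 * (η * ∫ v : ℝ, w v * Real.exp (η * v)) *
      ∑' m : ℕ, vonMangoldt m * φ (Real.log ((m : ℝ) / x)) * (m : ℝ) ^ 2 := by
    unfold S0
    rw [← tsum_mul_left]
    refine tsum_congr fun m => ?_
    by_cases h0 : vonMangoldt m * φ (Real.log ((m : ℝ) / x)) = 0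
    · rw [h0]
      ring
    · have hΛ : vonMangoldt m ≠ 0 := fun h => h0 (by rw [h, zero_mul])
      have hφ0 : φ (Real.log ((m : ℝ) / x)) ≠ 0 := fun h => h0 (by rw [h, mul_zero])
      have hm : 0 < m := by
        rcases Nat.eq_zero_or_pos m with h | h
        · rw [h] at hΛ
          simp at hΛ
        · exact h
      obtain ⟨a1, a2⟩ := hφs _ hφ0
      rw [SZA_inner g w hw hg x m hx2 hm η hη hη' a1 a2]
      ring
  set T : ℝ := ∑' m : ℕ, vonMangoldt m * φ (Real.log ((m : ℝ) / x)) * (m : ℝ) ^ 2 with hTdef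
  set I : ℝ := ∫ v : ℝ, w v * Real.exp (η * v) with hIdef
  set J : ℝ := ∫ u : ℝ, φ u * Real.exp (3 * u) with hJdef
  rw [hS]
  have e3 : 8 * (η * I) * T - 8 * (x : ℝ) ^ 3 * (η * I) * J = 8 * η * I * (T - (x : ℝ) ^ 3 * J) := by
    ring
  rw [e3, abs_mul, abs_mul, abs_of_pos (by positivity : (0 : ℝ) < 8 * η)]
  calc 8 * η * |I| * |T - (x : ℝ) ^ 3 * J|
      ≤ 8 * η * C * (κ / (8 * C) * (x : ℝ) ^ 3) := by
        refine mul_le_mul (mul_le_mul_of_nonneg_left hI (by positivity)) hT (abs_nonneg _) (by positivity)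
    _ = κ * η * (x : ℝ) ^ 3 := by
        field_simp

end Pool.Agent.SCT
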