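import Pool.Agent.helper94.SCT.Spec

/-! # sct:VAW (helper49): Vaughan's identity with a smooth cutoff -/

set_option autoImplicit false

namespace Pool.Agent.SCT

open Finset ArithmeticFunction MeasureTheory
open Pool.Agent.CH (nit eU)
open Pool.Agent.helper78.ED (wg SS)
open Pool.Agent.helper85.BVP (beta trunc Mr Zr vaughan)

/-- Dirichlet convolutions with a complex weight. -/
theorem VAW_conv (f h : ArithmeticFunction ℝ) (w : ℕ → ℂ) (X Y : ℕ) (hXY : X ≤ Y) :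
    ∑ n ∈ Ioc 0 X, (((f * h) n : ℝ) : ℂ) * w n =
      ∑ p ∈ Ioc 0 Y ×ˢ Ioc 0 Y with p.1 * p.2 ≤ X,
        ((f p.1 : ℝ) : ℂ) * ((h p.2 : ℝ) : ℂ) * w (p.1 * p.2) := by
  have h1 : ∀ n ∈ Ioc 0 X, (((f * h) n : ℝ) : ℂ) * w n =
      ∑ p ∈ Ioc 0 Y ×ˢ Ioc 0 Y with p.1 * p.2 = n,
        ((f p.1 : ℝ) : ℂ) * ((h p.2 : ℝ) : ℂ) * w (p.1 * p.2) := by
    intro n hn
    rw [mem_Ioc] at hn
    rw [mul_apply, Nat.divisorsAntidiagonal_eq_prod_filter_of_le hn.1.ne' (hn.2.trans hXY)]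
    push_cast
    rw [sum_mul]
    refine sum_congr rfl fun p hp => ?_
    rw [(mem_filter.mp hp).2]
  rw [sum_congr rfl h1]
  simp_rw [sum_filter]
  rw [sum_comm]
  refine sum_congr rfl fun p hp => ?_
  rw [mem_product, mem_Ioc, mem_Ioc] at hp
  by_cases hle : p.1 * p.2 ≤ X
  · rw [if_pos hle]
    rw [sum_eq_single (p.1 * p.2)]
    · rw [if_pos rfl]
    · intro n _ hne
      rw [if_neg (fun hh => hne hh.symm)]
    · intro hnot
      exact absurd (mem_Ioc.2 ⟨Nat.mul_pos hp.1.1 hp.2.1, hle⟩) hnot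
  · rw [if_neg hle]
    refine sum_eq_zero fun n hn => ?_
    rw [if_neg]
    intro hh
    rw [mem_Ioc] at hn
    exact hle (hh ▸ hn.2)

theorem VAW_pow (x : ℕ) (hx : 1 ≤ x) : 64 * x ^ 2 < 2 ^ (64 * x) := by
  have h1 : x < 2 ^ x := Nat.lt_two_pow_self
  have h2 : x ^ 2 ≤ (2 ^ x) ^ 2 := Nat.pow_le_pow_left h1.le 2
  have h3 : 64 * x ^ 2 ≤ 2 ^ 6 * (2 ^ x) ^ 2 := by
    have : (64 : ℕ) = 2 ^ 6 := by norm_num
    rw [this]
    exact Nat.mul_le_mul_left _ h2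
  refine lt_of_le_of_lt h3 ?_
  rw [← pow_mul, ← pow_add]
  exact Nat.pow_lt_pow_right (by norm_num) (by omega)

/-- Passage to dyadic blocks. -/
theorem VAW_blocks (x : ℕ) (hx : 1 ≤ x) (F : ℕ × ℕ → ℂ)
    (hF : ∀ p : ℕ × ℕ, 1 ≤ p.1 → 1 ≤ p.2 → F p ≠ 0 → 2 * x ^ 2 ≤ p.1 * p.2 ∧ p.1 * p.2 ≤ 64 * x ^ 2) :
    ∑ p ∈ Ioc 0 (256 * x ^ 2) ×ˢ Ioc 0 (256 * x ^ 2) with p.1 * p.2 ≤ 64 * x ^ 2, F p =
      ∑ w ∈ PQ x, ∑ m ∈ Ico (2 ^ w.1) (2 * 2 ^ w.1), ∑ k ∈ Ico (2 ^ w.2) (2 * 2 ^ w.2), F (m, k) := by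
  classical
  set Y := 256 * x ^ 2 with hY
  set P := Ioc 0 Y ×ˢ Ioc 0 Y with hP
  set lg : ℕ × ℕ → ℕ × ℕ := fun p => (Nat.log 2 p.1, Nat.log 2 p.2) with hlg
  -- the sum over blocks
  have hB : ∑ w ∈ PQ x, ∑ m ∈ Ico (2 ^ w.1) (2 * 2 ^ w.1), ∑ k ∈ Ico (2 ^ w.2) (2 * 2 ^ w.2),
      F (m, k) = ∑ p ∈ P with lg p ∈ PQ x, F p := by
    rw [← sum_fiberwise_of_maps_to (s := P.filter fun p => lg p ∈ PQ x) (t := PQ x) (g := lg)
      (fun p hp => (mem_filter.1 hp).2)]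
    refine sum_congr rfl fun w hw => ?_
    rw [← sum_product']
    refine sum_congr ?_ fun p _ => rfl
    ext p
    rw [mem_filter, mem_filter, mem_product, mem_Ico, mem_Ico, hP, mem_product, mem_Ioc, mem_Ioc]
    have hw2 : 2 ^ (w.1 + w.2) ≤ 64 * x ^ 2 := by
      unfold PQ at hw
      rw [mem_filter] at hw
      exact hw.2.2
    have hw1 : 2 ^ w.1 ≤ 64 * x ^ 2 :=
      le_trans (Nat.pow_le_pow_right (by norm_num) (Nat.le_add_right _ _)) hw2
    have hw1' : 2 ^ w.2 ≤ 64 * x ^ 2 :=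
      le_trans (Nat.pow_le_pow_right (by norm_num) (Nat.le_add_left _ _)) hw2
    constructor
    · rintro ⟨⟨h1, h2⟩, h3, h4⟩
      have hp1 : 0 < p.1 := lt_of_lt_of_le (by positivity) h1
      have hp2 : 0 < p.2 := lt_of_lt_of_le (by positivity) h3
      have e1 : Nat.log 2 p.1 = w.1 :=
        (Nat.log_eq_iff (Or.inr ⟨by norm_num, hp1.ne'⟩)).2 ⟨h1, by rw [pow_succ]; omega⟩
      have e2 : Nat.log 2 p.2 = w.2 :=
        (Nat.log_eq_iff (Or.inr ⟨by norm_num, hp2.ne'⟩)).2 ⟨h3, by rw [pow_succ]; omega⟩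
      have e : lg p = w := Prod.ext e1 e2
      refine ⟨⟨⟨⟨hp1, ?_⟩, hp2, ?_⟩, ?_⟩, e⟩
      · rw [hY]; omega
      · rw [hY]; omega
      · rw [e]; exact hw
    · rintro ⟨⟨⟨⟨h1, h2⟩, h3, h4⟩, h5⟩, e⟩
      have e1 : Nat.log 2 p.1 = w.1 := by rw [← e]
      have e2 : Nat.log 2 p.2 = w.2 := by rw [← e]
      have i1 := (Nat.log_eq_iff (Or.inr ⟨by norm_num, h1.ne'⟩)).1 e1
      have i2 := (Nat.log_eq_iff (Or.inr ⟨by norm_num, h3.ne'⟩)).1 e2
      rw [pow_succ] at i1 i2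
      exact ⟨⟨i1.1, by omega⟩, i2.1, by omega⟩
  rw [hB, sum_filter, sum_filter]
  refine sum_congr rfl fun p hp => ?_
  rw [hP, mem_product, mem_Ioc, mem_Ioc] at hp
  have hp1 : 0 < p.1 := hp.1.1
  have hp2 : 0 < p.2 := hp.2.1
  by_cases hF0 : F p = 0
  · rw [hF0, ite_self, ite_self]
  obtain ⟨f1, f2⟩ := hF p hp1 hp2 hF0
  have l1 : 2 ^ Nat.log 2 p.1 ≤ p.1 := Nat.pow_log_le_self 2 hp1.ne'
  have l2 : 2 ^ Nat.log 2 p.2 ≤ p.2 := Nat.pow_log_le_self 2 hp2.ne'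
  have u1 : p.1 < 2 ^ (Nat.log 2 p.1 + 1) := Nat.lt_pow_succ_log_self (by norm_num) _
  have u2 : p.2 < 2 ^ (Nat.log 2 p.2 + 1) := Nat.lt_pow_succ_log_self (by norm_num) _
  have lo : 2 ^ (Nat.log 2 p.1 + Nat.log 2 p.2) ≤ p.1 * p.2 := by
    rw [pow_add]; exact Nat.mul_le_mul l1 l2
  have up : p.1 * p.2 < 4 * 2 ^ (Nat.log 2 p.1 + Nat.log 2 p.2) := by
    have := Nat.mul_lt_mul'' u1 u2
    rw [pow_succ, pow_succ] at this
    rw [pow_add]
    calc p.1 * p.2 < 2 ^ Nat.log 2 p.1 * 2 * (2 ^ Nat.log 2 p.2 * 2) := this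
      _ = _ := by ring
  have hmem : lg p ∈ PQ x := by
    unfold PQ
    rw [mem_filter, mem_product, mem_range, mem_range]
    have hpw := VAW_pow x hx
    have hlt1 : Nat.log 2 p.1 < 64 * x := by
      by_contra hge
      have := Nat.pow_le_pow_right (n := 2) (by norm_num) (not_lt.1 hge)
      have h5 : p.1 ≤ p.1 * p.2 := Nat.le_mul_of_pos_right _ hp2
      omega
    have hlt2 : Nat.log 2 p.2 < 64 * x := by
      by_contra hge
      have := Nat.pow_le_pow_right (n := 2) (by norm_num) (not_lt.1 hge)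
      have h5 : p.2 ≤ p.1 * p.2 := Nat.le_mul_of_pos_left _ hp1
      omega
    refine ⟨⟨hlt1, hlt2⟩, ?_, ?_⟩
    · show x ^ 2 ≤ 2 * 2 ^ (Nat.log 2 p.1 + Nat.log 2 p.2)
      omega
    · show 2 ^ (Nat.log 2 p.1 + Nat.log 2 p.2) ≤ 64 * x ^ 2
      omega
  rw [if_pos f2, if_pos hmem]

theorem VAW_card (x : ℕ) (hx : 1 ≤ x) (hlx : 7 ≤ Real.log x) :
    (#(PQ x) : ℝ) ≤ 16 * Real.log x ^ 2 := by
  have hxr : (0 : ℝ) < x := by exact_mod_cast hx
  set s := Nat.log 2 (64 * x ^ 2) with hs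
  have hsub : PQ x ⊆ range (s + 1) ×ˢ range (s + 1) := by
    intro w hw
    unfold PQ at hw
    rw [mem_filter] at hw
    have hw2 := hw.2.2
    have hne : 64 * x ^ 2 ≠ 0 := by positivity
    have hw1 : 2 ^ w.1 ≤ 64 * x ^ 2 :=
      le_trans (Nat.pow_le_pow_right (by norm_num) (Nat.le_add_right _ _)) hw2
    have hw1' : 2 ^ w.2 ≤ 64 * x ^ 2 :=
      le_trans (Nat.pow_le_pow_right (by norm_num) (Nat.le_add_left _ _)) hw2
    rw [mem_product, mem_range, mem_range]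
    exact ⟨Nat.lt_succ_of_le (Nat.le_log_of_pow_le (by norm_num) hw1),
      Nat.lt_succ_of_le (Nat.le_log_of_pow_le (by norm_num) hw1')⟩
  have h1 := card_le_card hsub
  rw [card_product, card_range] at h1
  have h2 : (2 : ℝ) ^ s ≤ 64 * (x : ℝ) ^ 2 := by
    have : 2 ^ s ≤ 64 * x ^ 2 := Nat.pow_log_le_self 2 (by positivity)
    exact_mod_cast this
  have h3 : (s : ℝ) * Real.log 2 ≤ 6 * Real.log 2 + 2 * Real.log x := by
    have h4 := Real.log_le_log (by positivity) h2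
    rw [Real.log_pow, Real.log_mul (by norm_num) (by positivity), Real.log_pow] at h4
    have h5 : Real.log 64 = 6 * Real.log 2 := by
      have : (64 : ℝ) = 2 ^ 6 := by norm_num
      rw [this, Real.log_pow]
      norm_num
    rw [h5] at h4
    exact_mod_cast h4
  have hl2 : 0.6931471803 < Real.log 2 := Real.log_two_gt_d9
  have h6 : (s : ℝ) ≤ 6 + 3 * Real.log x := by
    by_contra hc
    push Not at hc
    have : (6 + 3 * Real.log x) * Real.log 2 < (s : ℝ) * Real.log 2 :=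
      mul_lt_mul_of_pos_right hc (by linarith)
    nlinarith
  have h7 : (#(PQ x) : ℝ) ≤ ((s : ℝ) + 1) * ((s : ℝ) + 1) := by exact_mod_cast h1
  have h8 : (s : ℝ) + 1 ≤ 4 * Real.log x := by linarith
  have h9 : (0 : ℝ) ≤ (s : ℝ) + 1 := by positivity
  nlinarith

theorem VAW : VAW_stmt := by
  intro g hg hgs
  obtain ⟨x₁, hx₁⟩ := Filter.eventually_atTop.1
    ((Real.tendsto_log_atTop.comp tendsto_natCast_atTop_atTop).eventually_ge_atTop (7 : ℝ))
  refine ⟨max x₁ 1, fun x hxx => ?_⟩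
  have hx : 1 ≤ x := le_trans (le_max_right _ _) hxx
  have hlx : 7 ≤ Real.log x := hx₁ x (le_trans (le_max_left _ _) hxx)
  refine ⟨VAW_card x hx hlx, fun t => ?_⟩
  have hx1 : (1 : ℝ) ≤ x := by exact_mod_cast hx
  have hxr : (0 : ℝ) < x := by linarith
  have hX : (0 : ℝ) < (x : ℝ) ^ 2 := by positivity
  have he4 : Real.exp 4 ≤ 64 := by
    have h1 : Real.exp 1 < 2.7182818286 := Real.exp_one_lt_d9
    have h2 : Real.exp 4 = Real.exp 1 ^ 4 := by
      rw [← Real.exp_nat_mul]; norm_num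
    rw [h2]
    have h3 : Real.exp 1 ^ 4 ≤ (2.7182818286 : ℝ) ^ 4 :=
      pow_le_pow_left₀ (Real.exp_pos 1).le h1.le 4
    refine le_trans h3 ?_
    norm_num
  have he1 : 2 ≤ Real.exp 1 := by
    have := Real.add_one_le_exp (1 : ℝ)
    linarith
  set K : ℕ := 64 * x ^ 2 with hK
  set U := Ux x with hU
  set w : ℕ → ℂ := fun n => (g (Real.log ((n : ℝ) / (x : ℝ) ^ 2)) : ℂ) * nu t n with hw
  -- the support of the weight
  have hsupp : ∀ n : ℕ, 1 ≤ n → w n ≠ 0 → 2 * x ^ 2 ≤ n ∧ n ≤ 64 * x ^ 2 := by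
    intro n hn hne
    have hn0 : (0 : ℝ) < n := by exact_mod_cast hn
    have h1 : g (Real.log ((n : ℝ) / (x : ℝ) ^ 2)) ≠ 0 := by
      intro h0
      apply hne
      rw [hw]
      simp only [h0, Complex.ofReal_zero, zero_mul]
    obtain ⟨h2, h3⟩ := hgs _ h1
    have h4 : Real.exp 1 ≤ (n : ℝ) / (x : ℝ) ^ 2 := (Real.le_log_iff_exp_le (by positivity)).1 h2
    have h5 : (n : ℝ) / (x : ℝ) ^ 2 ≤ Real.exp 4 := (Real.log_le_iff_le_exp (by positivity)).1 h3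
    have h6 : (2 : ℝ) * (x : ℝ) ^ 2 ≤ n := (le_div_iff₀ hX).1 (le_trans he1 h4)
    have h7 : (n : ℝ) ≤ 64 * (x : ℝ) ^ 2 := (div_le_iff₀ hX).1 (le_trans h5 he4)
    exact ⟨by exact_mod_cast h6, by exact_mod_cast h7⟩
  have hUx : U ≤ x := by
    rw [hU]
    unfold Ux
    refine Nat.floor_le_of_le ?_
    calc (x : ℝ) ^ (2 / 3 : ℝ) ≤ (x : ℝ) ^ (1 : ℝ) :=
          Real.rpow_le_rpow_of_exponent_le hx1 (by norm_num)
      _ = x := Real.rpow_one _
  -- the sum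
  have hDL : DL g ((x : ℝ) ^ 2) t = ∑ n ∈ Ioc 0 K, ((vonMangoldt n : ℝ) : ℂ) * w n := by
    have h1 := DL_eq (φ := g) (R := 4) (fun u hu => by
      obtain ⟨a1, a2⟩ := hgs u hu
      rw [abs_le]
      constructor <;> linarith) hX K (by
        rw [hK]
        push_cast
        nlinarith) t
    rw [h1]
    have h2 : Icc 1 K = Ioc 0 K := by
      ext n
      rw [mem_Icc, mem_Ioc]
      omega
    rw [h2]
    refine sum_congr rfl fun n _ => ?_
    rw [hw]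
    ring
  have hdec : ∀ n : ℕ, vonMangoldt n = trunc vonMangoldt U n + (trunc Mr U * ArithmeticFunction.log) n
      - (eU U * Zr) n + ((vonMangoldt - trunc vonMangoldt U) * beta U) n := by
    intro n
    have h := DFunLike.congr_fun (vaughan U U) n
    rw [← mul_assoc] at h
    exact h
  have hS : ∑ j ∈ Ioc 0 K, ((vonMangoldt j : ℝ) : ℂ) * w j =
      ∑ j ∈ Ioc 0 K, ((trunc vonMangoldt U j : ℝ) : ℂ) * w j +
      ∑ j ∈ Ioc 0 K, (((trunc Mr U * ArithmeticFunction.log) j : ℝ) : ℂ) * w j -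
      ∑ j ∈ Ioc 0 K, (((eU U * Zr) j : ℝ) : ℂ) * w j +
      ∑ j ∈ Ioc 0 K, ((((vonMangoldt - trunc vonMangoldt U) * beta U) j : ℝ) : ℂ) * w j := by
    rw [← sum_add_distrib, ← sum_sub_distrib, ← sum_add_distrib]
    refine sum_congr rfl fun j _ => ?_
    rw [hdec j]
    push_cast
    ring
  have p0 : ∑ j ∈ Ioc 0 K, ((trunc vonMangoldt U j : ℝ) : ℂ) * w j = 0 := by
    refine sum_eq_zero fun j hj => ?_
    rw [mem_Ioc] at hj
    rw [Pool.Agent.helper85.BVP.trunc_apply]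
    by_cases hjU : j ≤ U
    · rw [if_pos hjU]
      have : w j = 0 := by
        by_contra hne
        have h1 := (hsupp j hj.1 hne).1
        have h2 : x ≤ x ^ 2 := Nat.le_self_pow (by norm_num) x
        have h3 : 0 < x ^ 2 := by positivity
        omega
      rw [this, mul_zero]
    · rw [if_neg hjU, Complex.ofReal_zero, zero_mul]
  have key : ∀ (f h : ArithmeticFunction ℝ) (f' h' : ℕ → ℂ),
      (∀ a : ℕ, 1 ≤ a → ((f a : ℝ) : ℂ) = f' a) → (∀ b : ℕ, 1 ≤ b → ((h b : ℝ) : ℂ) = h' b) →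
      ∑ j ∈ Ioc 0 K, (((f * h) j : ℝ) : ℂ) * w j =
        ∑ v ∈ PQ x, B2 g ((x : ℝ) ^ 2) (2 ^ v.1) (2 ^ v.2) f' h' t := by
    intro f h f' h' hf hh
    rw [VAW_conv f h w K (256 * x ^ 2) (by rw [hK]; omega)]
    have h1 := VAW_blocks x hx (fun p => ((f p.1 : ℝ) : ℂ) * ((h p.2 : ℝ) : ℂ) * w (p.1 * p.2)) (by
      intro p hp1 hp2 hne
      have h2 : w (p.1 * p.2) ≠ 0 := by
        intro h0
        apply hne
        show ((f p.1 : ℝ) : ℂ) * ((h p.2 : ℝ) : ℂ) * w (p.1 * p.2) = 0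
        rw [h0, mul_zero]
      exact hsupp _ (Nat.mul_pos hp1 hp2) h2)
    rw [hK]
    refine Eq.trans h1 (sum_congr rfl fun v _ => ?_)
    unfold B2
    refine sum_congr rfl fun m hm => sum_congr rfl fun k hk => ?_
    rw [mem_Ico] at hm hk
    have hm0 : 1 ≤ m := le_trans (Nat.one_le_two_pow) hm.1
    have hk0 : 1 ≤ k := le_trans (Nat.one_le_two_pow) hk.1
    show ((f m : ℝ) : ℂ) * ((h k : ℝ) : ℂ) * w (m * k) = _
    rw [hf m hm0, hh k hk0, hw]
    ring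
  have p1 := key (trunc Mr U) ArithmeticFunction.log (cmu U) (fun k => (Real.log k : ℂ) ^ 1) (by
      intro a _
      rw [Pool.Agent.helper85.BVP.trunc_apply]
      unfold cmu
      split_ifs
      · have e : Mr a = ((moebius a : ℤ) : ℝ) := rfl
        rw [e, Complex.ofReal_intCast]
      · rw [Complex.ofReal_zero]) (by
      intro b _
      rw [log_apply, pow_one])
  have p2 := key (eU U) Zr (ceU U) (fun k => (Real.log k : ℂ) ^ 0) (fun a _ => rfl) (by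
      intro b hb
      have e : Zr b = ((zeta b : ℕ) : ℝ) := rfl
      rw [e, zeta_apply, if_neg (by omega), Nat.cast_one, Complex.ofReal_one, pow_zero])
  have p3 := key (vonMangoldt - trunc vonMangoldt U) (beta U) (cLa U) (cbe U) (by
      intro a _
      have e : (vonMangoldt - trunc vonMangoldt U) a = vonMangoldt a - trunc vonMangoldt U a := rfl
      rw [e, Pool.Agent.helper85.BVP.trunc_apply]
      unfold cLa
      by_cases ha : a ≤ U
      · rw [if_pos ha, if_neg (not_lt.2 ha), sub_self, Complex.ofReal_zero]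
      · rw [if_neg ha, if_pos (not_le.1 ha), sub_zero]) (fun b _ => rfl)
  rw [hDL, hS, p0, p1, p2, p3, zero_add]
  rw [sum_add_distrib, sum_add_distrib]
  refine le_trans (norm_add_le _ _) (add_le_add (le_trans (norm_sub_le _ _) (add_le_add ?_ ?_)) ?_)
  · exact norm_sum_le _ _
  · exact norm_sum_le _ _
  · exact norm_sum_le _ _

end Pool.Agent.SCT
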